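import Pool.Agent.Helper25_CN2.Stmts
import Pool.Agent.Helper13_CON.BDiv

/-!
Squad CN2, module B_DIV2: an isotropic vector with divisor 1 (rank 5 suffices).
-/

noncomputable section

set_option autoImplicit false

namespace Pool.Agent.CN2.H13

open Pool.Agent.CON Pool.Agent.CN2 Pool.Agent.H25Cong Pool.Agent.CON.H13

/-- B6': an isotropic vector with divisor 1 -/
theorem b_div2 (hHYP : B_HYP) (hKER : B_KER) (hHEN : B_HEN) : B_DIV2 := by
  intro n L hL hind ⟨e0, he0, hne, hiso⟩
  have hq := qfL hL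
  have hq0 : qL L ⟨e0, he0⟩ = 0 := by
    have : ((qL L ⟨e0, he0⟩ : ℤ) : ℝ) = ((0 : ℤ) : ℝ) := by
      rw [qL_cast hL]; simp [hiso]
    exact_mod_cast this
  obtain ⟨x, hx, hxe⟩ := exists_ne hL hne
  obtain ⟨e, f, h1, h2, h3⟩ := div_abs hHYP hKER hHEN hq
    (fun p hp => indL hL (hind p hp)) ⟨e0, he0⟩ hq0
    ⟨⟨x, hx⟩, by
      intro h0
      apply hxe
      have := bL_cast hL ⟨x, hx⟩ ⟨e0, he0⟩
      rw [h0] at this
      simpa using this.symm⟩
  refine ⟨e, e.2, f, f.2, ?_, ?_, ?_⟩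
  · have := qL_cast hL e
    rw [h1] at this
    push_cast at this
    linarith
  · have := qL_cast hL f
    rw [h2] at this
    push_cast at this
    linarith
  · rw [← bL_cast hL, h3]
    push_cast
    ring

end Pool.Agent.CN2.H13

end
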