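import Pool.Agent.Helper25_CN2.Stmts
import Pool.Agent.Helper2_CN2.JAx

set_option autoImplicit false

/-!
# Squad CN2, module J_AM: the classes of A_n, with the case of equality
-/

noncomputable section

namespace Pool.Agent.CN2.H13

open Pool.Agent.CON Pool.Agent.CN2 Pool.Agent.CON.H4 Pool.Agent.CN2.H2

lemma ev_eq {t c d : ℤ} (hd : 0 < d) (hc1 : -d < c) (hc2 : c < d) (h : 2 * d ∣ t - c)
    (h0 : t * (t - c) = 0) : t = c := by
  rcases mul_eq_zero.mp h0 with h1 | h1
  · obtain ⟨k, hk⟩ := h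
    rw [h1] at hk
    have hk0 : k = 0 := by
      rcases lt_trichotomy k 0 with h | h | h
      · have : 2 * d * k ≤ 2 * d * (-1) := mul_le_mul_of_nonneg_left (by omega) (by omega)
        linarith
      · exact h
      · have : 2 * d * 1 ≤ 2 * d * k := mul_le_mul_of_nonneg_left (by omega) (by omega)
        linarith
    rw [hk0] at hk
    linarith
  · linarith

lemma odd_eq {t c d : ℤ} (hd : 0 < d) (h : d ∣ t - c) (h0 : t * (t - c) = d) :
    (t = 1 ∧ c = 1 - d) ∨ (t = -1 ∧ c = d - 1) := by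
  obtain ⟨k, hk⟩ := h
  have h1 : d * (t * k) = d * 1 := by
    rw [hk] at h0
    linarith
  have h2 : t * k = 1 := mul_left_cancel₀ hd.ne' h1
  rcases Int.eq_one_or_neg_one_of_mul_eq_one' h2 with ⟨h3, h4⟩ | ⟨h3, h4⟩
  · left
    rw [h4] at hk
    exact ⟨h3, by linarith⟩
  · right
    rw [h4] at hk
    exact ⟨h3, by linarith⟩

/-- the arithmetic core, the case of equality -/
lemma core_eq {n m : ℕ} (hm1 : 1 ≤ m) (hmn : m ≤ n) (t : Fin n → ℤ) (d : ℤ) (hd : 0 < d)
    (hdo : ¬ (2 : ℤ) ∣ d)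
    (hT : (2 : ℤ) ∣ ∑ i, t i) (h1 : ∀ i, i.1 < m → d ∣ t i + ∑ j, t j)
    (ho : ∀ i : Fin n, i.1 < m → ¬ (2 : ℤ) ∣ t i)
    (h2 : ∀ i : Fin n, ¬ i.1 < m → 2 * d ∣ t i + ∑ j, t j)
    (heq : (∑ i, t i) * (∑ i, t i) + ∑ i, t i * t i = m * d) :
    (d = 1 ∧ ∑ i : Fin n, (if (i : ℕ) < m then t i else 0) = 0) ∨
    (1 < d ∧ (m : ℤ) = (n + 1 - m) * (d - 1) ∧
      (∑ i : Fin n, (if (i : ℕ) < m then t i else 0) = m ∨
        ∑ i : Fin n, (if (i : ℕ) < m then t i else 0) = -m)) := by
  set T := ∑ i, t i with hTdef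
  obtain ⟨c, hc, hc1, hc2, hc3⟩ := resid (-T) d hd hdo ((dvd_neg).2 hT)
  have e : T * T + ∑ i, t i * t i = (-T) * (-T - c) + ∑ i, t i * (t i - c) := by
    have : ∑ i, t i * (t i - c) = ∑ i, t i * t i - c * T := by
      rw [hTdef, Finset.mul_sum, ← Finset.sum_sub_distrib]
      exact Finset.sum_congr rfl fun i _ => by ring
    rw [this]; ring
  rw [e] at heq
  have h0 := ev_term hc1 hc2 hc3
  have hterm : ∀ i ∈ (Finset.univ : Finset (Fin n)),
      (if i.1 < m then d else 0) ≤ t i * (t i - c) := by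
    intro i _
    split_ifs with h
    · apply odd_term hc1 hc2
      · have : t i - c = (t i + T) + (-T - c) := by ring
        rw [this]
        exact dvd_add (h1 i h) ((Dvd.intro_left 2 rfl).trans hc3)
      · intro h3
        apply ho i h
        rw [show t i = c by linarith]
        exact hc
    · apply ev_term hc1 hc2
      have : t i - c = (t i + T) + (-T - c) := by ring
      rw [this]
      exact dvd_add (h2 i h) hc3
  have hs : m * d ≤ ∑ i, t i * (t i - c) := by
    rw [← xc_card hmn d]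
    exact Finset.sum_le_sum hterm
  have hT0 : (-T) * (-T - c) = 0 := le_antisymm (by linarith) h0
  have hsum : ∑ i : Fin n, (if i.1 < m then d else 0) = ∑ i, t i * (t i - c) := by
    rw [xc_card hmn d]
    linarith
  have hall := (Finset.sum_eq_sum_iff_of_le hterm).mp hsum
  have eT : -T = c := ev_eq hd hc1 hc2 hc3 hT0
  have ein : ∀ i : Fin n, i.1 < m → (t i = 1 ∧ c = 1 - d) ∨ (t i = -1 ∧ c = d - 1) := by
    intro i hi
    have h3 := hall i (Finset.mem_univ _)
    rw [if_pos hi] at h3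
    apply odd_eq hd _ h3.symm
    have : t i - c = (t i + T) + (-T - c) := by ring
    rw [this]
    exact dvd_add (h1 i hi) ((Dvd.intro_left 2 rfl).trans hc3)
  have eout : ∀ i : Fin n, ¬ i.1 < m → t i = c := by
    intro i hi
    have h3 := hall i (Finset.mem_univ _)
    rw [if_neg hi] at h3
    apply ev_eq hd hc1 hc2 _ h3.symm
    have : t i - c = (t i + T) + (-T - c) := by ring
    rw [this]
    exact dvd_add (h2 i hi) hc3
  -- the total sum
  have hsplit : T = ∑ i : Fin n, (if (i : ℕ) < m then t i else 0) + (n - m) * c := by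
    have h3 : ∀ i : Fin n, t i = (if (i : ℕ) < m then t i else 0) +
        (c - if (i : ℕ) < m then c else 0) := by
      intro i
      by_cases hi : (i : ℕ) < m
      · rw [if_pos hi, if_pos hi]; ring
      · rw [if_neg hi, if_neg hi, eout i hi]; ring
    have h4 : T = ∑ i : Fin n, ((if (i : ℕ) < m then t i else 0) +
        (c - if (i : ℕ) < m then c else 0)) := by
      rw [hTdef]
      exact Finset.sum_congr rfl fun i _ => h3 i
    rw [h4, Finset.sum_add_distrib, Finset.sum_sub_distrib, xc_card hmn c]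
    simp
    ring
  rcases eq_or_lt_of_le (show 1 ≤ d by omega) with hd1 | hd1
  · left
    refine ⟨hd1.symm, ?_⟩
    have hc0 : c = 0 := by omega
    rw [hc0, mul_zero, add_zero] at hsplit
    rw [← hsplit]
    linarith
  · right
    refine ⟨hd1, ?_⟩
    have hn : 0 < n := by omega
    rcases ein ⟨0, hn⟩ (show (0 : ℕ) < m by omega) with ⟨-, h3⟩ | ⟨-, h3⟩
    · have h4 : ∑ i : Fin n, (if (i : ℕ) < m then t i else 0) = m := by
        have : ∀ i : Fin n, (if (i : ℕ) < m then t i else 0) = if i.1 < m then 1 else 0 := by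
          intro i
          split_ifs with hi
          · rcases ein i hi with ⟨h5, -⟩ | ⟨-, h5⟩
            · exact h5
            · omega
          · rfl
        rw [Finset.sum_congr rfl fun i _ => this i, xc_card hmn 1, mul_one]
      refine ⟨?_, Or.inl h4⟩
      rw [h4] at hsplit
      have h5 : -c = m + (n - m) * c := by linarith
      rw [h3] at h5
      linarith
    · have h4 : ∑ i : Fin n, (if (i : ℕ) < m then t i else 0) = -m := by
        have : ∀ i : Fin n, (if (i : ℕ) < m then t i else 0) = if i.1 < m then -1 else 0 := by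
          intro i
          split_ifs with hi
          · rcases ein i hi with ⟨-, h5⟩ | ⟨h5, -⟩
            · omega
            · exact h5
          · rfl
        rw [Finset.sum_congr rfl fun i _ => this i, xc_card hmn (-1)]
        ring
      refine ⟨?_, Or.inr h4⟩
      rw [h4] at hsplit
      have h5 : -c = -m + (n - m) * c := by linarith
      rw [h3] at h5
      linarith

/-- module J_AM -/
theorem j_am : J_AM := by
  intro M _ b C s n m v hb hC hs hv hA hm1 hme hmn
  have hsp := hC.pos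
  have hX0 := xc_sum hmn hme
  rintro T ρ ⟨⟨z, hz, rfl⟩, hρ, hρ4, hall⟩
  obtain ⟨u, rfl⟩ := ax_co hA hz
  have hXz : xA v m + (2 : ℤ) • ∑ i, u i • v i = ∑ i, (xc m i + 2 * u i) • v i := by
    rw [xA_eq, Finset.smul_sum, ← Finset.sum_add_distrib]
    exact Finset.sum_congr rfl fun i _ => by rw [add_smul, mul_smul]
  rw [hXz] at hall ⊢
  set t : Fin n → ℤ := fun i => xc m i + 2 * u i with ht
  have htT : ∑ i, t i = 2 * ∑ i, u i := by
    rw [ht, Finset.sum_add_distrib, hX0, zero_add, Finset.mul_sum]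
  obtain ⟨ρ', hρ'⟩ : ∃ ρ', ρ = 2 * ρ' := ⟨ρ / 2, by omega⟩
  have hρo : ¬ (2 : ℤ) ∣ ρ' := by omega
  have hρp : 0 < ρ' := by omega
  -- g and d
  set g : ℤ := (Int.gcd s ρ' : ℤ) with hg
  have hgp : 0 < g := by
    rw [hg]; exact_mod_cast Int.gcd_pos_of_ne_zero_left _ hsp.ne'
  obtain ⟨s', hs'⟩ : g ∣ s := Int.gcd_dvd_left _ _
  obtain ⟨d, hd⟩ : g ∣ ρ' := Int.gcd_dvd_right _ _
  have hdp : 0 < d := by
    by_contra h
    push Not at h
    have : g * d ≤ 0 := mul_nonpos_of_nonneg_of_nonpos hgp.le h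
    rw [← hd] at this
    omega
  have hs'p : 0 < s' := by
    by_contra h
    push Not at h
    have : g * s' ≤ 0 := mul_nonpos_of_nonneg_of_nonpos hgp.le h
    rw [← hs'] at this
    omega
  have hdo : ¬ (2 : ℤ) ∣ d := by
    intro h
    apply hρo
    rw [hd]
    exact h.mul_left _
  have hcop : IsCoprime d s' := by
    have h1 : Int.gcd s ρ' = Int.gcd (g * s') (g * d) := by rw [← hs', ← hd]
    rw [Int.gcd_mul_left] at h1
    have h2 : (Int.gcd s ρ' : ℤ) = g.natAbs * (Int.gcd s' d : ℤ) := by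
      rw [h1]; push_cast; rfl
    rw [← hg, Int.natCast_natAbs, abs_of_pos hgp] at h2
    have h3 : (Int.gcd s' d : ℤ) = 1 := by
      have : g * 1 = g * (Int.gcd s' d : ℤ) := by rw [mul_one]; exact h2
      exact (mul_left_cancel₀ hgp.ne' this).symm
    have h4 : Int.gcd d s' = 1 := by
      rw [Int.gcd_comm]; exact_mod_cast h3
    exact Int.isCoprime_iff_gcd_eq_one.2 h4
  -- divisibility by d
  have k1 : ∀ a : ℤ, ρ' ∣ s * a → d ∣ a := by
    intro a ha
    rw [hd, hs', mul_assoc] at ha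
    exact hcop.dvd_of_dvd_mul_left ((mul_dvd_mul_iff_left hgp.ne').1 ha)
  have k2 : ∀ a : ℤ, ρ ∣ s * a → 2 * d ∣ a := by
    intro a ha
    have h1 : d ∣ a := k1 a ((Dvd.intro_left 2 hρ'.symm).trans ha)
    have h2 : (2 : ℤ) ∣ a := by
      have h3 : (2 : ℤ) ∣ s * a := (Dvd.intro ρ' hρ'.symm).trans ha
      rcases Int.prime_two.dvd_or_dvd h3 with h | h
      · exact absurd h hs
      · exact h
    have h4 : IsCoprime (2 : ℤ) d := by
      rw [Int.isCoprime_iff_gcd_eq_one]
      have h5 : Int.gcd 2 d ∣ 2 := by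
        have := Int.gcd_dvd_left 2 d
        exact_mod_cast this
      rcases (Nat.dvd_prime Nat.prime_two).1 h5 with h6 | h6
      · exact h6
      · exfalso
        apply hdo
        have := Int.gcd_dvd_right 2 d
        rw [h6] at this
        exact_mod_cast this
    exact h4.mul_dvd h2 h1
  have a1 : ∀ i : Fin n, i.1 < m → d ∣ t i + ∑ j, t j := by
    intro i _
    apply k1
    have h1 := hall ((2 : ℤ) • v i) (AddSubgroup.zsmul_mem _
      (AddSubgroup.subset_closure (hv.1 i)) _) (by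
        rw [hb.zsmul_right]; exact Dvd.intro _ rfl)
    rw [hb.zsmul_right, ax_b1 hb hC hv, hρ'] at h1
    exact (mul_dvd_mul_iff_left two_ne_zero).1 h1
  have a2 : ∀ i : Fin n, i.1 < m → ¬ (2 : ℤ) ∣ t i := by
    intro i hi h
    apply xc_odd hi
    have : xc m i = t i - 2 * u i := by rw [ht]; ring
    rw [this]
    exact dvd_sub h (Dvd.intro _ rfl)
  have a3 : ∀ i : Fin n, ¬ i.1 < m → 2 * d ∣ t i + ∑ j, t j := by
    intro i hi
    apply k2
    have h1 := hall (v i) (AddSubgroup.subset_closure (hv.1 i)) (by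
      rw [xA_eq, ax_b1 hb hC hv, hX0, add_zero]
      unfold xc
      rw [if_neg hi]; simp)
    rwa [ax_b1 hb hC hv] at h1
  have hcore := core hmn t d hdp hdo ⟨_, htT⟩ a1 a2 a3
  have hfin : (m : ℤ) / 2 * ρ = g * (m * d) := by
    obtain ⟨k, rfl⟩ := hme
    have : ((k + k : ℕ) : ℤ) / 2 = k := by push_cast; omega
    rw [this, hρ', hd]; push_cast; ring
  have hbb : b (∑ i, (xc m i + 2 * u i) • v i) (∑ i, (xc m i + 2 * u i) • v i) =
      s * ((∑ i, t i) * (∑ i, t i) + ∑ i, t i * t i) := ax_b2 hb hC hv t t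
  have hbw : b (∑ i, (xc m i + 2 * u i) • v i) (wA v m) =
      s * ((n + 1) * ∑ i : Fin n, if (i : ℕ) < m then t i else 0) := ax_bw hb hC hv hmn t
  rw [hbb, hfin]
  simp only [hbw]
  have hgs : g ≤ s := by
    rw [hs']; nlinarith
  have hm0 : (0 : ℤ) < m := by exact_mod_cast (by omega : 0 < m)
  have hmd : 0 < (m : ℤ) * d := mul_pos hm0 hdp
  have hA : g * (m * d) ≤ s * (m * d) := mul_le_mul_of_nonneg_right hgs hmd.le
  have hB : s * (m * d) ≤ s * ((∑ i, t i) * (∑ i, t i) + ∑ i, t i * t i) :=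
    mul_le_mul_of_nonneg_left hcore hsp.le
  refine ⟨hA.trans hB, fun heq => ?_⟩
  have h1 : s * (m * d) ≤ g * (m * d) := by rw [← heq]; exact hB
  have h2 : g = s := le_antisymm hgs (le_of_mul_le_mul_right h1 hmd)
  have h3 : (∑ i, t i) * (∑ i, t i) + ∑ i, t i * t i = m * d := by
    rw [h2] at heq
    exact mul_left_cancel₀ hsp.ne' heq
  rcases core_eq hm1 hmn t d hdp hdo ⟨_, htT⟩ a1 a2 a3 h3 with ⟨h4, h5⟩ | ⟨h4, h5, h6⟩
  · left
    refine ⟨by rw [hρ', hd, h2, h4, mul_one], ?_⟩
    rw [h5, mul_zero, mul_zero]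
  · right
    refine ⟨d, h4, hdo, by rw [hρ', hd, h2, mul_assoc], h5, ?_⟩
    rcases h6 with h6 | h6
    · left
      rw [h6, mul_assoc]
    · right
      rw [h6]; ring

end Pool.Agent.CN2.H13

end
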