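import Pool.Agent.Helper25_CN2.Stmts
import Pool.Agent.Helper25_CON.PDLem
import Pool.Agent.Helper13_CON.GCld

set_option autoImplicit false

/-!
# Squad CN2, module J_D: the classes of D_n, with the case of equality
-/

noncomputable section

namespace Pool.Agent.CN2.H13

open Pool.Agent.CON Pool.Agent.CN2 Pool.Agent.CON.H13

/-- module J_D -/
theorem j_d : J_D := by
  intro M _ b C s n m F hb hC hs hF hA hm1 hme hmn
  obtain ⟨hF1, hF2, hF3⟩ := hF
  have hsp := hC.pos
  -- products
  have hb1 : ∀ (t : Fin n → ℤ) (j : Fin n), b (∑ i, t i • F i) (F j) = 4 * s * t j := by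
    intro t j
    rw [hb.sum_left, Finset.sum_eq_single j]
    · rw [hb.zsmul_left, hF1]; ring
    · intro i _ hij
      rw [hb.zsmul_left, hF2 i j hij, mul_zero]
    · intro h; exact absurd (Finset.mem_univ _) h
  have hbb : ∀ t : Fin n → ℤ, b (∑ i, t i • F i) (∑ i, t i • F i) =
      4 * s * ∑ i, t i * t i := by
    intro t
    rw [hb.sum_right, Finset.mul_sum]
    refine Finset.sum_congr rfl fun i _ => ?_
    rw [hb.zsmul_right, hb1]; ring
  -- the vectors with given double
  have hn1 : ∀ (X : M) (t : Fin n → ℤ), (2 : ℤ) • X = ∑ i, t i • F i →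
      b X X = s * ∑ i, t i * t i := by
    intro X t h
    have h1 := hbb t
    rw [← h, hb.zsmul_left, hb.zsmul_right] at h1
    linarith
  have hn2 : ∀ (X : M) (t : Fin n → ℤ), (2 : ℤ) • X = ∑ i, t i • F i →
      ∀ j, b X (F j) = 2 * s * t j := by
    intro X t h j
    have h1 := hb1 t j
    rw [← h, hb.zsmul_left] at h1
    linarith
  have htor : ∀ X Y : M, (2 : ℤ) • X = (2 : ℤ) • Y → X = Y := by
    intro X Y h
    have h1 : (2 : ℤ) • (X - Y) = 0 := by rw [smul_sub, h, sub_self]
    exact sub_eq_zero.mp (hb.zsmul_eq_zero two_ne_zero h1)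
  have hsingle : ∀ i0 : Fin n, ∑ i, (Pi.single i0 1 : Fin n → ℤ) i • F i = F i0 := by
    intro i0
    rw [Finset.sum_eq_single i0]
    · simp
    · intro j _ hj
      rw [Pi.single_eq_of_ne hj]; simp
    · intro h; exact absurd (Finset.mem_univ _) h
  -- coordinates
  have hco : ∀ z ∈ AddSubgroup.closure C, ∃ t : Fin n → ℤ, (2 : ℤ) • z = ∑ i, t i • F i := by
    intro z hz
    induction hz using AddSubgroup.closure_induction with
    | mem z hz =>
      obtain ⟨i, j, -, h | h | h⟩ := hA z hz
      · refine ⟨Pi.single i 1 + Pi.single j 1, ?_⟩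
        rw [h]
        simp only [Pi.add_apply, add_smul, Finset.sum_add_distrib, hsingle]
      · refine ⟨Pi.single i 1 - Pi.single j 1, ?_⟩
        rw [h]
        simp only [Pi.sub_apply, sub_smul, Finset.sum_sub_distrib, hsingle]
      · refine ⟨- (Pi.single i 1 + Pi.single j 1), ?_⟩
        rw [h]
        simp only [Pi.neg_apply, neg_smul, Finset.sum_neg_distrib, Pi.add_apply, add_smul,
          Finset.sum_add_distrib, hsingle]
    | zero => exact ⟨0, by simp⟩
    | add x y _ _ hx hy =>
      obtain ⟨t, ht⟩ := hx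
      obtain ⟨u, hu⟩ := hy
      refine ⟨t + u, ?_⟩
      rw [smul_add, ht, hu, ← Finset.sum_add_distrib]
      exact Finset.sum_congr rfl fun l _ => by rw [Pi.add_apply, add_smul]
    | neg x _ hx =>
      obtain ⟨t, ht⟩ := hx
      refine ⟨-t, ?_⟩
      rw [smul_neg, ht, ← Finset.sum_neg_distrib]
      exact Finset.sum_congr rfl fun l _ => by rw [Pi.neg_apply, neg_smul]
  -- the frame vectors
  have hFC : ∀ i, F i ∈ AddSubgroup.closure C := by
    intro i
    obtain ⟨j, hj⟩ : ∃ j : Fin n, i ≠ j := by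
      have hn : 2 ≤ n := by omega
      by_cases h : i.1 = 0
      · exact ⟨⟨1, by omega⟩, fun h1 => by rw [h1] at h; simp at h⟩
      · exact ⟨⟨0, by omega⟩, fun h1 => h (by rw [h1])⟩
    obtain ⟨⟨w, hw, e1⟩, ⟨w', hw', e2⟩⟩ := hF3 i j hj
    have e : F i = w + w' := by
      apply htor
      rw [smul_add, e1, e2, two_smul]
      abel
    rw [e]
    exact AddSubgroup.add_mem _ (AddSubgroup.subset_closure hw)
      (AddSubgroup.subset_closure hw')
  -- the class
  have hex : ∀ k : ℕ, k + k ≤ n → ∃ x ∈ AddSubgroup.closure C,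
      (2 : ℤ) • x = ∑ i : Fin n, xc (k + k) i • F i := by
    intro k
    induction k with
    | zero =>
      intro _
      refine ⟨0, AddSubgroup.zero_mem _, ?_⟩
      simp [xc]
    | succ k ih =>
      intro hk
      obtain ⟨x, hx, e⟩ := ih (by omega)
      set p : Fin n := ⟨k + k, by omega⟩ with hp
      set q : Fin n := ⟨k + k + 1, by omega⟩ with hq
      have hpq : p ≠ q := by
        intro h
        have := congrArg Fin.val h
        simp [hp, hq] at this
      obtain ⟨⟨w, hw, e1⟩, -⟩ := hF3 p q hpq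
      refine ⟨x + w, AddSubgroup.add_mem _ hx (AddSubgroup.subset_closure hw), ?_⟩
      rw [smul_add, e, e1, ← hsingle p, ← hsingle q, ← Finset.sum_add_distrib,
        ← Finset.sum_add_distrib]
      refine Finset.sum_congr rfl fun i _ => ?_
      rw [← add_smul, ← add_smul]
      congr 1
      unfold xc
      simp only [Pi.single_apply]
      have a1 : (i = p) ↔ i.1 = k + k := by rw [Fin.ext_iff]
      have a2 : (i = q) ↔ i.1 = k + k + 1 := by rw [Fin.ext_iff]
      simp only [a1, a2]
      split_ifs <;> omega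
  obtain ⟨k, hk⟩ := hme
  obtain ⟨x, hx, ex⟩ := hex k (by omega)
  rw [← hk] at ex
  have hXX : b x x = s * m := by
    rw [hn1 x _ ex]
    have h1 : ∀ i : Fin n, xc m i * xc m i = if i.1 < m then 1 else 0 := by
      intro i
      unfold xc
      split_ifs <;> ring
    rw [Finset.sum_congr rfl fun i _ => h1 i, xc_card hmn.le 1]
    ring
  have hso : (2 : ℤ) ∣ s - 1 := by omega
  refine ⟨x, hx, ?_, ?_, ?_⟩
  · rw [hXX]
    obtain ⟨a, ha⟩ := hso
    refine ⟨k * a, ?_⟩
    have h1 : s = 2 * a + 1 := by linarith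
    rw [h1, hk]; push_cast; ring
  · set p : Fin n := ⟨0, by omega⟩ with hp
    set q : Fin n := ⟨m, hmn⟩ with hq
    have hpq : p ≠ q := by
      intro h
      have := congrArg Fin.val h
      simp only [hp, hq] at this
      omega
    obtain ⟨⟨w, hw, e1⟩, -⟩ := hF3 p q hpq
    refine ⟨w, AddSubgroup.subset_closure hw, ?_⟩
    have h1 : 2 * b x w = 2 * s := by
      rw [← hb.zsmul_right, e1, hb.add_right, hn2 x _ ex, hn2 x _ ex]
      have h2 : (xc m p : ℤ) = 1 := by
        unfold xc
        rw [if_pos (show p.1 < m from hm1)]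
      have h3 : (xc m q : ℤ) = 0 := by
        unfold xc
        rw [if_neg (show ¬ q.1 < m from lt_irrefl m)]
      rw [h2, h3]; ring
    have h2 : b x w = s := by linarith
    rw [h2]
    exact hs
  · intro T ρ hAD
    obtain ⟨⟨z, hz, rfl⟩, hρ, hρ4, hall⟩ := hAD
    obtain ⟨u, hu⟩ := hco z hz
    set t : Fin n → ℤ := fun i => xc m i + 2 * u i with ht
    have eX : (2 : ℤ) • (x + (2 : ℤ) • z) = ∑ i, t i • F i := by
      rw [smul_add, ex, hu, Finset.smul_sum, ← Finset.sum_add_distrib]
      exact Finset.sum_congr rfl fun i _ => by rw [ht, add_smul, mul_smul]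
    obtain ⟨ρ', hρ'⟩ : ∃ ρ', ρ = 2 * ρ' := ⟨ρ / 2, by omega⟩
    have hρp : 0 < ρ' := by omega
    -- g and d
    set g : ℤ := (Int.gcd s ρ' : ℤ) with hg
    have hgp : 0 < g := by
      rw [hg]; exact_mod_cast Int.gcd_pos_of_ne_zero_left _ hsp.ne'
    obtain ⟨s', hs'⟩ : g ∣ s := Int.gcd_dvd_left _ _
    obtain ⟨d, hd⟩ : g ∣ ρ' := Int.gcd_dvd_right _ _
    have hdp : 0 < d := by
      by_contra h
      push Not at h
      have : g * d ≤ 0 := mul_nonpos_of_nonneg_of_nonpos hgp.le h
      rw [← hd] at this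
      omega
    have hs'p : 0 < s' := by
      by_contra h
      push Not at h
      have : g * s' ≤ 0 := mul_nonpos_of_nonneg_of_nonpos hgp.le h
      rw [← hs'] at this
      omega
    have hcop : IsCoprime d s' := by
      have h1 : Int.gcd s ρ' = Int.gcd (g * s') (g * d) := by rw [← hs', ← hd]
      rw [Int.gcd_mul_left] at h1
      have h2 : (Int.gcd s ρ' : ℤ) = g.natAbs * (Int.gcd s' d : ℤ) := by
        rw [h1]; push_cast; rfl
      rw [← hg, Int.natCast_natAbs, abs_of_pos hgp] at h2
      have h3 : (Int.gcd s' d : ℤ) = 1 := by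
        have : g * 1 = g * (Int.gcd s' d : ℤ) := by rw [mul_one]; exact h2
        exact (mul_left_cancel₀ hgp.ne' this).symm
      have h4 : Int.gcd d s' = 1 := by
        rw [Int.gcd_comm]; exact_mod_cast h3
      exact Int.isCoprime_iff_gcd_eq_one.2 h4
    have k1 : ∀ i, d ∣ t i := by
      intro i
      have h1 := hall (F i) (hFC i) (by
        rw [hn2 x _ ex i]
        exact ⟨s * xc m i, by ring⟩)
      rw [hn2 _ _ eX i, hρ', mul_assoc] at h1
      have h2 : ρ' ∣ s * t i := (mul_dvd_mul_iff_left two_ne_zero).1 h1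
      rw [hd, hs', mul_assoc] at h2
      exact hcop.dvd_of_dvd_mul_left ((mul_dvd_mul_iff_left hgp.ne').1 h2)
    have k2 : ∀ i : Fin n, i.1 < m → d * d ≤ t i * t i := by
      intro i hi
      obtain ⟨c, hc⟩ := k1 i
      have hne : c ≠ 0 := by
        rintro rfl
        rw [mul_zero] at hc
        have h1 : t i = 1 + 2 * u i := by
          simp only [ht, xc, if_pos hi]
        omega
      have hc2 : 1 ≤ c * c := by
        have : 0 < c * c := mul_self_pos.mpr hne
        omega
      have h5 : t i * t i = d * d * (c * c) := by rw [hc]; ring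
      rw [h5]
      calc d * d = d * d * 1 := (mul_one _).symm
        _ ≤ d * d * (c * c) := mul_le_mul_of_nonneg_left hc2 (mul_self_nonneg _)
    rw [hn1 _ _ eX]
    have hcore : (m : ℤ) * (d * d) ≤ ∑ i, t i * t i := by
      rw [← xc_card hmn.le (d * d)]
      apply Finset.sum_le_sum
      intro i _
      split_ifs with h
      · exact k2 i h
      · exact mul_self_nonneg _
    have hfin : (m : ℤ) / 2 * ρ = g * (m * d) := by
      have : (m : ℤ) / 2 = k := by omega
      rw [this, hρ', hd, hk]; push_cast; ring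
    have hgs : g ≤ s := by
      rw [hs']; nlinarith
    have hm0 : (0 : ℤ) < m := by exact_mod_cast (by omega : 0 < m)
    have hgm : 0 < g * m := mul_pos hgp hm0
    have hdd : d ≤ d * d := by nlinarith
    have hA : g * (m * (d * d)) ≤ s * (m * (d * d)) :=
      mul_le_mul_of_nonneg_right hgs (by positivity)
    have hB : s * (m * (d * d)) ≤ s * ∑ i, t i * t i := mul_le_mul_of_nonneg_left hcore hsp.le
    have hC' : g * (m * d) ≤ g * (m * (d * d)) :=
      mul_le_mul_of_nonneg_left (mul_le_mul_of_nonneg_left hdd hm0.le) hgp.le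
    rw [hfin]
    refine ⟨hC'.trans (hA.trans hB), fun heq => ?_⟩
    have h1 : g * (m * (d * d)) ≤ g * (m * d) := by rw [← heq]; exact hA.trans hB
    have h2 : g * m * (d * d) ≤ g * m * d := by linarith [h1]
    have h3 : d * d ≤ d := le_of_mul_le_mul_left h2 hgm
    have hd1 : d = 1 := by nlinarith
    have h4 : s * (m * (d * d)) ≤ g * (m * d) := by rw [← heq]; exact hB
    rw [hd1] at h4
    have h5 : m * s ≤ m * g := by linarith [h4]
    have h6 : s ≤ g := le_of_mul_le_mul_left h5 hm0
    have h7 : g = s := le_antisymm hgs h6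
    rw [hρ', hd, hd1, h7, mul_one]

end Pool.Agent.CN2.H13

end
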