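import Pool.Agent.Helper25_CN2.Stmts
import Pool.Agent.Helper25_CON.PDLem

/-!
Squad CN2, module J_E6: the class of norm 4 of E_6.
-/

noncomputable section

set_option autoImplicit false

namespace Pool.Agent.CN2.H13

open Pool.Agent.CON Pool.Agent.CN2

section E6

variable {M : Type} [AddCommGroup M] {b : M → M → ℤ} {C : Set M} {s : ℤ} {F : Fin 5 → M} {α : M}

/-- the vector orthogonal to the frame -/
def om (F : Fin 5 → M) (α : M) : M := (4 : ℤ) • α + ∑ i, F i

lemma om_F (hb : PD b) (hE : E6D b C s F α) (i : Fin 5) : b (om F α) (F i) = 0 := by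
  obtain ⟨⟨h1, h2, -⟩, -, h3, -⟩ := hE
  unfold om
  rw [hb.add_left, hb.zsmul_left, h3, hb.sum_left, Finset.sum_eq_single i, h1]
  · ring
  · intro j _ hj; exact h2 j i hj
  · intro h; exact absurd (Finset.mem_univ i) h

lemma om_al (hb : PD b) (hC : Irr b C s) (hE : E6D b C s F α) : b (om F α) α = 3 * s := by
  obtain ⟨⟨h1, h2, -⟩, h4, h3, -⟩ := hE
  unfold om
  rw [hb.add_left, hb.zsmul_left, hC.norm α h4, hb.sum_left]
  have : ∀ i, b (F i) α = -s := fun i => by rw [hb.symm, h3]
  rw [Finset.sum_congr rfl fun i _ => this i, Finset.sum_const, Finset.card_univ,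
    Fintype.card_fin]
  simp only [nsmul_eq_mul, Nat.cast_ofNat]
  ring

lemma om_om (hb : PD b) (hC : Irr b C s) (hE : E6D b C s F α) :
    b (om F α) (om F α) = 12 * s := by
  have h1 : b (om F α) (om F α) = 4 * b (om F α) α + ∑ i, b (om F α) (F i) := by
    conv_lhs => rw [show om F α = (4 : ℤ) • α + ∑ i, F i from rfl]
    rw [hb.add_right, hb.zsmul_right, hb.sum_right]
    rfl
  rw [h1, om_al hb hC hE, Finset.sum_eq_zero fun i _ => om_F hb hE i]
  ring

lemma tor (hb : PD b) {c : ℤ} (hc : c ≠ 0) {X Y : M} (h : c • X = c • Y) : X = Y := by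
  have h1 : c • (X - Y) = 0 := by rw [smul_sub, h, sub_self]
  exact sub_eq_zero.mp (hb.zsmul_eq_zero hc h1)

lemma F_mem (hb : PD b) (hE : E6D b C s F α) (i : Fin 5) : F i ∈ AddSubgroup.closure C := by
  obtain ⟨⟨-, -, hF3⟩, -⟩ := hE
  obtain ⟨j, hj⟩ : ∃ j : Fin 5, i ≠ j := by
    by_cases h : i = 0
    · exact ⟨1, by rw [h]; decide⟩
    · exact ⟨0, h⟩
  obtain ⟨⟨w, hw, e1⟩, ⟨w', hw', e2⟩⟩ := hF3 i j hj
  have e : F i = w + w' := by
    apply tor hb two_ne_zero
    rw [smul_add, e1, e2, two_smul]
    abel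
  rw [e]
  exact AddSubgroup.add_mem _ (AddSubgroup.subset_closure hw)
    (AddSubgroup.subset_closure hw')

lemma om_mem (hb : PD b) (hE : E6D b C s F α) : om F α ∈ AddSubgroup.closure C := by
  refine AddSubgroup.add_mem _ (AddSubgroup.zsmul_mem _
    (AddSubgroup.subset_closure hE.2.1) 4) ?_
  exact AddSubgroup.sum_mem _ fun i _ => F_mem hb hE i

lemma sum_pi (F : Fin 5 → M) (i : Fin 5) (c : ℤ) :
    ∑ l, (Pi.single i c : Fin 5 → ℤ) l • F l = c • F i := by
  rw [Finset.sum_eq_single i]
  · simp
  · intro j _ hj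
    rw [Pi.single_eq_of_ne hj]; simp
  · intro h; exact absurd (Finset.mem_univ _) h

/-- coordinates -/
lemma coord0 (y : M) (h0 : y ∈ AddSubgroup.closure ({β | β ∈ C ∧ InD F β} ∪ {α})) :
    ∃ (a : Fin 5 → ℤ) (l : ℤ), (4 : ℤ) • y = ∑ i, a i • F i + l • om F α ∧
      (∀ i, (2 : ℤ) ∣ a i - l) ∧ (4 : ℤ) ∣ ∑ i, a i + l := by
  have sp : ∀ (i : Fin 5) (c : ℤ), ∑ l, (Pi.single i c : Fin 5 → ℤ) l = c := by
    intro i c
    rw [Finset.sum_pi_single']
    simp
  induction h0 using AddSubgroup.closure_induction with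
  | mem y hy =>
    rcases hy with ⟨-, i, j, -, h | h | h⟩ | h
    · refine ⟨Pi.single i 2 + Pi.single j 2, 0, ?_, ?_, ?_⟩
      · rw [zero_smul, add_zero]
        simp only [Pi.add_apply, add_smul, Finset.sum_add_distrib, sum_pi]
        have : (4 : ℤ) • y = (2 : ℤ) • ((2 : ℤ) • y) := by rw [smul_smul]; norm_num
        rw [this, h, smul_add]
      · intro l
        rw [sub_zero, Pi.add_apply]
        exact dvd_add (by rw [Pi.single_apply]; split_ifs <;> simp)
          (by rw [Pi.single_apply]; split_ifs <;> simp)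
      · simp only [Pi.add_apply, Finset.sum_add_distrib, sp]
        norm_num
    · refine ⟨Pi.single i 2 - Pi.single j 2, 0, ?_, ?_, ?_⟩
      · rw [zero_smul, add_zero]
        simp only [Pi.sub_apply, sub_smul, Finset.sum_sub_distrib, sum_pi]
        have : (4 : ℤ) • y = (2 : ℤ) • ((2 : ℤ) • y) := by rw [smul_smul]; norm_num
        rw [this, h, smul_sub]
      · intro l
        rw [sub_zero, Pi.sub_apply]
        exact dvd_sub (by rw [Pi.single_apply]; split_ifs <;> simp)
          (by rw [Pi.single_apply]; split_ifs <;> simp)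
      · simp only [Pi.sub_apply, Finset.sum_sub_distrib, sp]
        norm_num
    · refine ⟨-(Pi.single i 2 + Pi.single j 2), 0, ?_, ?_, ?_⟩
      · rw [zero_smul, add_zero]
        simp only [Pi.neg_apply, Pi.add_apply, neg_smul, add_smul, Finset.sum_neg_distrib,
          Finset.sum_add_distrib, sum_pi]
        have : (4 : ℤ) • y = (2 : ℤ) • ((2 : ℤ) • y) := by rw [smul_smul]; norm_num
        rw [this, h, smul_neg, smul_add]
      · intro l
        rw [sub_zero, Pi.neg_apply, Pi.add_apply]
        exact (dvd_neg).2 (dvd_add (by rw [Pi.single_apply]; split_ifs <;> simp)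
          (by rw [Pi.single_apply]; split_ifs <;> simp))
      · simp only [Pi.neg_apply, Pi.add_apply, Finset.sum_neg_distrib, Finset.sum_add_distrib,
          sp]
        norm_num
    · rw [Set.mem_singleton_iff] at h
      subst h
      refine ⟨fun _ => -1, 1, ?_, fun _ => by norm_num, by simp⟩
      unfold om
      simp only [neg_smul, one_smul, Finset.sum_neg_distrib]
      abel
  | zero => exact ⟨0, 0, by simp, fun _ => by simp, by simp⟩
  | add x y hx hy ihx ihy =>
    obtain ⟨a, l, e, h1, h2⟩ := ihx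
    obtain ⟨a', l', e', h1', h2'⟩ := ihy
    refine ⟨a + a', l + l', ?_, fun i => ?_, ?_⟩
    · rw [smul_add, e, e', add_smul]
      simp only [Pi.add_apply, add_smul, Finset.sum_add_distrib]
      abel
    · rw [Pi.add_apply]
      have := dvd_add (h1 i) (h1' i)
      have e3 : a i - l + (a' i - l') = a i + a' i - (l + l') := by ring
      rwa [e3] at this
    · simp only [Pi.add_apply, Finset.sum_add_distrib]
      have := dvd_add h2 h2'
      have e3 : ∑ i, a i + l + (∑ i, a' i + l') = ∑ i, a i + ∑ i, a' i + (l + l') := by ring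
      rwa [e3] at this
  | neg x hx ihx =>
    obtain ⟨a, l, e, h1, h2⟩ := ihx
    refine ⟨-a, -l, ?_, fun i => ?_, ?_⟩
    · rw [smul_neg, e, neg_smul]
      simp only [Pi.neg_apply, neg_smul, Finset.sum_neg_distrib]
      abel
    · rw [Pi.neg_apply]
      have := (dvd_neg).2 (h1 i)
      have e3 : -(a i - l) = -a i - -l := by ring
      rwa [e3] at this
    · simp only [Pi.neg_apply, Finset.sum_neg_distrib]
      have := (dvd_neg).2 h2
      have e3 : -(∑ i, a i + l) = -∑ i, a i + -l := by ring
      rwa [e3] at this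

lemma coord (hE : E6D b C s F α) (y : M) (hy : y ∈ AddSubgroup.closure C) :
    ∃ (a : Fin 5 → ℤ) (l : ℤ), (4 : ℤ) • y = ∑ i, a i • F i + l • om F α ∧
      (∀ i, (2 : ℤ) ∣ a i - l) ∧ (4 : ℤ) ∣ ∑ i, a i + l :=
  coord0 (C := C) y (hE.2.2.2 y hy)

/-- products in coordinates -/
lemma co_F (hb : PD b) (hE : E6D b C s F α) {y : M} {a : Fin 5 → ℤ} {l : ℤ}
    (e : (4 : ℤ) • y = ∑ i, a i • F i + l • om F α) (j : Fin 5) : b y (F j) = s * a j := by
  have h1 : b ((4 : ℤ) • y) (F j) = 4 * s * a j := by
    rw [e, hb.add_left, hb.zsmul_left, om_F hb hE, hb.sum_left, Finset.sum_eq_single j]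
    · rw [hb.zsmul_left, hE.1.1]; ring
    · intro i _ hij
      rw [hb.zsmul_left, hE.1.2.1 i j hij, mul_zero]
    · intro h; exact absurd (Finset.mem_univ _) h
  rw [hb.zsmul_left] at h1
  linarith

lemma co_om (hb : PD b) (hC : Irr b C s) (hE : E6D b C s F α) {y : M} {a : Fin 5 → ℤ} {l : ℤ}
    (e : (4 : ℤ) • y = ∑ i, a i • F i + l • om F α) : b y (om F α) = 3 * s * l := by
  have h1 : b ((4 : ℤ) • y) (om F α) = 12 * s * l := by
    rw [e, hb.add_left, hb.zsmul_left, om_om hb hC hE, hb.sum_left]
    rw [Finset.sum_eq_zero]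
    · ring
    · intro i _
      rw [hb.zsmul_left, hb.symm, om_F hb hE, mul_zero]
  rw [hb.zsmul_left] at h1
  linarith

lemma co_al (hb : PD b) (hC : Irr b C s) (hE : E6D b C s F α) {y : M} {a : Fin 5 → ℤ} {l : ℤ}
    (e : (4 : ℤ) • y = ∑ i, a i • F i + l • om F α) :
    4 * b y α = s * (3 * l - ∑ i, a i) := by
  have h1 : b ((4 : ℤ) • y) α = s * (3 * l - ∑ i, a i) := by
    rw [e, hb.add_left, hb.zsmul_left, om_al hb hC hE, hb.sum_left]
    have : ∀ i, b (a i • F i) α = - s * a i := by
      intro i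
      rw [hb.zsmul_left, hb.symm, hE.2.2.1 i]; ring
    rw [Finset.sum_congr rfl fun i _ => this i, ← Finset.mul_sum]
    ring
  rw [hb.zsmul_left] at h1
  exact h1

lemma co_sq (hb : PD b) (hC : Irr b C s) (hE : E6D b C s F α) {y : M} {a : Fin 5 → ℤ} {l : ℤ}
    (e : (4 : ℤ) • y = ∑ i, a i • F i + l • om F α) :
    4 * b y y = s * (∑ i, a i * a i + 3 * (l * l)) := by
  have h1 : b y ((4 : ℤ) • y) = s * (∑ i, a i * a i + 3 * (l * l)) := by
    conv_lhs => rw [e]
    rw [hb.add_right, hb.zsmul_right, co_om hb hC hE e, hb.sum_right]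
    have : ∀ i, b y (a i • F i) = s * (a i * a i) := by
      intro i
      rw [hb.zsmul_right, co_F hb hE e]; ring
    rw [Finset.sum_congr rfl fun i _ => this i, ← Finset.mul_sum]
    ring
  rw [hb.zsmul_right] at h1
  exact h1

end E6

/-- J9: the class of norm 4 of E_6 -/
theorem j_e6 (hVAL : E_VAL) : J_E6 := by
  intro M _ b C s F α hb hC hs hE
  have hsp := hC.pos
  have hom : (4 : ℤ) • α + ∑ i, F i = om F α := rfl
  rw [hom]
  have hF0 := F_mem hb hE 0
  refine ⟨hF0, om_mem hb hE, ?_, ?_, ?_, ?_⟩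
  · rw [hE.1.1]; exact ⟨s, rfl⟩
  · rw [hb.symm, hE.2.2.1]
    intro h
    exact hs ((dvd_neg).1 h)
  · intro y hy
    obtain ⟨a, l, e, h1, -⟩ := coord hE y hy
    rw [co_om hb hC hE e, co_F hb hE e]
    obtain ⟨c, hc⟩ := h1 0
    obtain ⟨s0, hs0⟩ : ∃ s0, s = 2 * s0 + 1 := ⟨s / 2, by omega⟩
    refine ⟨-(c + s0 * a 0), ?_⟩
    have h2 : l = a 0 - 2 * c := by linarith
    rw [h2]
    have h3 : 3 * s * (a 0 - 2 * c) - 3 * s * (s * a 0) =
        3 * s * (a 0 - 2 * c - s * a 0) := by ring
    rw [h3]
    have h4 : a 0 - 2 * c - s * a 0 = -2 * (c + s0 * a 0) := by rw [hs0]; ring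
    rw [h4]; ring
  · intro t ρ ⟨⟨z, hz, ht⟩, hρ, hρ4, hall⟩
    obtain ⟨a, k, ez, hpar, hsum⟩ := coord hE z hz
    set c : Fin 5 → ℤ := fun i => a i + (if i = 0 then 2 else 0) with hc
    have e0 : ∑ i, (if i = (0 : Fin 5) then (4 : ℤ) else 0) • F i = (4 : ℤ) • F 0 := by
      rw [Finset.sum_eq_single (0 : Fin 5)]
      · rw [if_pos rfl]
      · intro j _ hj; rw [if_neg hj, zero_smul]
      · intro h; exact absurd (Finset.mem_univ _) h
    have et : (4 : ℤ) • t = ∑ i, (2 * c i) • F i + (2 * k) • om F α := by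
      have h1 : (4 : ℤ) • t = (4 : ℤ) • F 0 + (2 : ℤ) • ((4 : ℤ) • z) := by
        rw [ht, smul_add, smul_smul, smul_smul]; norm_num
      rw [h1, ez, smul_add, Finset.smul_sum, ← e0, ← add_assoc, ← Finset.sum_add_distrib,
        smul_smul]
      congr 1
      refine Finset.sum_congr rfl fun i _ => ?_
      rw [smul_smul, ← add_smul]
      congr 1
      simp only [hc]
      split_ifs <;> ring
    have hcpar : ∀ i, (2 : ℤ) ∣ c i - k := by
      intro i
      have h1 : c i - k = (a i - k) + (if i = 0 then 2 else 0) := by simp only [hc]; ring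
      rw [h1]
      refine dvd_add (hpar i) ?_
      split_ifs <;> simp
    have hcsum : (4 : ℤ) ∣ ∑ i, c i + k - 2 := by
      have h1 : ∑ i, c i = ∑ i, a i + 2 := by
        simp only [hc, Finset.sum_add_distrib]
        congr 1
      rw [h1]
      have h2 : ∑ i, a i + 2 + k - 2 = ∑ i, a i + k := by ring
      rw [h2]; exact hsum
    have htt : b t t = s * (∑ i, c i * c i + 3 * (k * k)) := by
      have h1 := co_sq hb hC hE et
      have h2 : ∑ i, (2 * c i) * (2 * c i) = 4 * ∑ i, c i * c i := by
        rw [Finset.mul_sum]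
        exact Finset.sum_congr rfl fun i _ => by ring
      rw [h2] at h1
      linarith
    have htom : b t (om F α) = 6 * s * k := by
      rw [co_om hb hC hE et]; ring
    -- g and d
    obtain ⟨ρ', hρ'⟩ : ∃ ρ', ρ = 2 * ρ' := ⟨ρ / 2, by omega⟩
    have hρp : 0 < ρ' := by omega
    have hρodd : ¬ (2 : ℤ) ∣ ρ' := by omega
    set g : ℤ := (Int.gcd s ρ' : ℤ) with hg
    have hgp : 0 < g := by
      rw [hg]; exact_mod_cast Int.gcd_pos_of_ne_zero_left _ hsp.ne'
    obtain ⟨s', hs'⟩ : g ∣ s := Int.gcd_dvd_left _ _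
    obtain ⟨d, hd⟩ : g ∣ ρ' := Int.gcd_dvd_right _ _
    have hdp : 0 < d := by
      by_contra h
      push Not at h
      have : g * d ≤ 0 := mul_nonpos_of_nonneg_of_nonpos hgp.le h
      rw [← hd] at this
      omega
    have hs'p : 0 < s' := by
      by_contra h
      push Not at h
      have : g * s' ≤ 0 := mul_nonpos_of_nonneg_of_nonpos hgp.le h
      rw [← hs'] at this
      omega
    have hcop : IsCoprime d s' := by
      have h1 : Int.gcd s ρ' = Int.gcd (g * s') (g * d) := by rw [← hs', ← hd]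
      rw [Int.gcd_mul_left] at h1
      have h2 : (Int.gcd s ρ' : ℤ) = g.natAbs * (Int.gcd s' d : ℤ) := by
        rw [h1]; push_cast; rfl
      rw [← hg, Int.natCast_natAbs, abs_of_pos hgp] at h2
      have h3 : (Int.gcd s' d : ℤ) = 1 := by
        have : g * 1 = g * (Int.gcd s' d : ℤ) := by rw [mul_one]; exact h2
        exact (mul_left_cancel₀ hgp.ne' this).symm
      have h4 : Int.gcd d s' = 1 := by
        rw [Int.gcd_comm]; exact_mod_cast h3
      exact Int.isCoprime_iff_gcd_eq_one.2 h4
    have hs'odd : ¬ (2 : ℤ) ∣ s' := by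
      intro h
      apply hs
      rw [hs']; exact Dvd.dvd.mul_left h g
    have hdodd : ¬ (2 : ℤ) ∣ d := by
      intro h
      apply hρodd
      rw [hd]; exact Dvd.dvd.mul_left h g
    have hcop2 : IsCoprime (2 * d) s' :=
      IsCoprime.mul_left ((Prime.coprime_iff_not_dvd Int.prime_two).2 hs'odd) hcop
    have red : ∀ u : ℤ, ρ ∣ s * u → 2 * d ∣ u := by
      intro u hu
      rw [hρ', hd, hs'] at hu
      have h1 : g * (2 * d) ∣ g * (s' * u) := by
        have e1 : 2 * (g * d) = g * (2 * d) := by ring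
        have e2 : g * s' * u = g * (s' * u) := by ring
        rwa [e1, e2] at hu
      exact hcop2.dvd_of_dvd_mul_left ((mul_dvd_mul_iff_left hgp.ne').1 h1)
    have k0 : ∀ i j : Fin 5, i ≠ j → 2 * d ∣ c i + c j ∧ 2 * d ∣ c i - c j := by
      intro i j hij
      obtain ⟨⟨w, hw, e1⟩, ⟨w', hw', e2⟩⟩ := hE.1.2.2 i j hij
      have ev : ∀ l : Fin 5, b (F 0) (F l) = if l = 0 then 4 * s else 0 := by
        intro l
        split_ifs with h
        · rw [h, hE.1.1]
        · exact hE.1.2.1 0 l (fun h' => h h'.symm)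
      constructor
      · apply red
        have h1 := hall w (AddSubgroup.subset_closure hw) (by
          have h2 : 2 * b (F 0) w = (if i = 0 then 4 * s else 0) + (if j = 0 then 4 * s else 0) := by
            rw [← hb.zsmul_right, e1, hb.add_right, ev, ev]
          have h3 : b (F 0) w = 2 * ((if i = 0 then s else 0) + (if j = 0 then s else 0)) := by
            split_ifs at h2 ⊢ <;> linarith
          exact ⟨_, h3⟩)
        have h2 : 2 * b t w = 2 * (s * (c i + c j)) := by
          rw [← hb.zsmul_right, e1, hb.add_right, co_F hb hE et, co_F hb hE et]; ring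
        have h3 : b t w = s * (c i + c j) := by linarith
        rwa [h3] at h1
      · apply red
        have h1 := hall w' (AddSubgroup.subset_closure hw') (by
          have h2 : 2 * b (F 0) w' = (if i = 0 then 4 * s else 0) - (if j = 0 then 4 * s else 0) := by
            rw [← hb.zsmul_right, e2, hb.sub_right, ev, ev]
          have h3 : b (F 0) w' = 2 * ((if i = 0 then s else 0) - (if j = 0 then s else 0)) := by
            split_ifs at h2 ⊢ <;> linarith
          exact ⟨_, h3⟩)
        have h2 : 2 * b t w' = 2 * (s * (c i - c j)) := by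
          rw [← hb.zsmul_right, e2, hb.sub_right, co_F hb hE et, co_F hb hE et]; ring
        have h3 : b t w' = s * (c i - c j) := by linarith
        rwa [h3] at h1
    have k1 : ∀ i, d ∣ c i := by
      intro i
      obtain ⟨j, hj⟩ : ∃ j : Fin 5, i ≠ j := by
        by_cases h : i = 0
        · exact ⟨1, by rw [h]; decide⟩
        · exact ⟨0, h⟩
      have h1 := dvd_add (k0 i j hj).1 (k0 i j hj).2
      have h2 : c i + c j + (c i - c j) = 2 * c i := by ring
      rw [h2] at h1
      exact (mul_dvd_mul_iff_left two_ne_zero).1 h1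
    have k2 : 2 * d ∣ 3 * k - ∑ i, c i := by
      apply red
      have h1 := hall ((2 : ℤ) • α) (AddSubgroup.zsmul_mem _
        (AddSubgroup.subset_closure hE.2.1) 2) ⟨b (F 0) α, hb.zsmul_right _ _ _⟩
      have h2 := co_al hb hC hE et
      rw [← Finset.mul_sum] at h2
      rw [hb.zsmul_right] at h1
      have h3 : 2 * b t α = s * (3 * k - ∑ i, c i) := by linarith
      rwa [h3] at h1
    have hgs : g ≤ s := by rw [hs']; nlinarith
    have h2ρ : 2 * ρ = g * (4 * d) := by rw [hρ', hd]; ring
    have hcc0 : 0 ≤ ∑ i, c i * c i := Finset.sum_nonneg fun i _ => mul_self_nonneg _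
    have hkk0 : 0 ≤ k * k := mul_self_nonneg k
    beta_reduce
    rw [h2ρ, htt, htom]
    have hgd : 0 < g * d := mul_pos hgp hdp
    have h4gs : g * (4 * d) ≤ s * (4 * d) := mul_le_mul_of_nonneg_right hgs (by linarith)
    have hdd : d ≤ d * d := by nlinarith
    by_cases hk : (2 : ℤ) ∣ k
    · by_cases hz0 : ∀ i, c i = 0
      · -- all coordinates are zero
        have hs0 : ∑ i, c i = 0 := Finset.sum_eq_zero fun i _ => hz0 i
        have hss0 : ∑ i, c i * c i = 0 := Finset.sum_eq_zero fun i _ => by rw [hz0 i]; ring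
        rw [hs0] at hcsum k2
        rw [sub_zero] at k2
        rw [hss0, zero_add]
        have hk0 : k ≠ 0 := by
          rintro rfl
          omega
        have hk2 : 2 ≤ |k| := by
          obtain ⟨m, hm⟩ := hk
          have : m ≠ 0 := by rintro rfl; exact hk0 (by rw [hm]; ring)
          rw [hm, abs_mul]
          have := Int.one_le_abs this
          have h2 : |(2 : ℤ)| = 2 := by norm_num
          rw [h2]; linarith
        have h3k : 2 * d ≤ 3 * |k| := by
          have h1 : 2 * d ∣ |3 * k| := (dvd_abs _ _).2 k2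
          have h2 : |3 * k| = 3 * |k| := by rw [abs_mul]; norm_num
          rw [h2] at h1
          exact Int.le_of_dvd (by linarith) h1
        have hkk : k * k = |k| * |k| := (abs_mul_abs_self k).symm
        have hA : 4 * d ≤ 3 * (k * k) := by rw [hkk]; nlinarith
        have hB : s * (4 * d) ≤ s * (3 * (k * k)) := mul_le_mul_of_nonneg_left hA hsp.le
        refine ⟨h4gs.trans hB, fun heq => Or.inr ?_⟩
        have h1 : s * (4 * d) ≤ g * (4 * d) := by rw [← heq]; exact hB
        have h2 : s ≤ g := le_of_mul_le_mul_right h1 (by linarith)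
        have h3 : g = s := le_antisymm hgs h2
        rw [h3] at heq
        have h4 : 3 * (k * k) = 4 * d := mul_left_cancel₀ hsp.ne' heq
        have h5 : |k| ≤ 2 := by
          rw [hkk] at h4
          nlinarith
        have h6 : |k| = 2 := le_antisymm h5 hk2
        have h7 : d = 3 := by
          rw [hkk, h6] at h4
          linarith
        refine ⟨by rw [hρ', hd, h3, h7]; ring, ?_⟩
        rcases abs_eq (by norm_num : (0 : ℤ) ≤ 2) |>.1 h6 with h8 | h8
        · left; rw [h8]; ring
        · right; rw [h8]; ring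
      · push Not at hz0
        obtain ⟨i, hi⟩ := hz0
        have h2c : (2 : ℤ) ∣ c i := by
          have := dvd_add (hcpar i) hk
          rwa [sub_add_cancel] at this
        have h2d : 2 * d ∣ c i :=
          IsCoprime.mul_dvd ((Prime.coprime_iff_not_dvd Int.prime_two).2 hdodd) h2c (k1 i)
        have hci : 4 * (d * d) ≤ c i * c i := by
          obtain ⟨m, hm⟩ := h2d
          have hm0 : m ≠ 0 := by rintro rfl; exact hi (by rw [hm]; ring)
          have h1 : 1 ≤ m * m := by
            have : 0 < m * m := mul_self_pos.mpr hm0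
            omega
          have h2 : c i * c i = 4 * (d * d) * (m * m) := by rw [hm]; ring
          rw [h2]
          have h3 : 0 ≤ 4 * (d * d) := by positivity
          nlinarith
        have hcs : c i * c i ≤ ∑ j, c j * c j :=
          Finset.single_le_sum (f := fun j => c j * c j) (fun j _ => mul_self_nonneg _)
            (Finset.mem_univ i)
        have hA : 4 * d ≤ ∑ j, c j * c j + 3 * (k * k) := by linarith
        have hB : s * (4 * d) ≤ s * (∑ j, c j * c j + 3 * (k * k)) :=
          mul_le_mul_of_nonneg_left hA hsp.le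
        refine ⟨h4gs.trans hB, fun heq => Or.inl ?_⟩
        have h1 : s * (4 * d) ≤ g * (4 * d) := by rw [← heq]; exact hB
        have h2 : s ≤ g := le_of_mul_le_mul_right h1 (by linarith)
        have h3 : g = s := le_antisymm hgs h2
        rw [h3] at heq
        have h4 : ∑ j, c j * c j + 3 * (k * k) = 4 * d := mul_left_cancel₀ hsp.ne' heq
        have h5 : d * d ≤ d := by linarith
        have h6 : d = 1 := by nlinarith
        have h7 : k * k = 0 := by
          rw [h6] at h4 hci
          linarith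
        have h8 : k = 0 := mul_self_eq_zero.1 h7
        exact ⟨by rw [hρ', hd, h3, h6, mul_one], by rw [h8]; ring⟩
    · -- all coordinates are odd
      have hci : ∀ i, d * d ≤ c i * c i := by
        intro i
        obtain ⟨m, hm⟩ := k1 i
        have hm0 : m ≠ 0 := by
          rintro rfl
          apply hk
          have := hcpar i
          rw [hm, mul_zero, zero_sub] at this
          exact (dvd_neg).1 this
        have h1 : 1 ≤ m * m := by
          have : 0 < m * m := mul_self_pos.mpr hm0
          omega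
        have h2 : c i * c i = d * d * (m * m) := by rw [hm]; ring
        rw [h2]
        nlinarith [mul_self_nonneg d]
      have h5 : 5 * (d * d) ≤ ∑ i, c i * c i := by
        have h1 : ∑ _i : Fin 5, d * d ≤ ∑ i, c i * c i := Finset.sum_le_sum fun i _ => hci i
        rw [Finset.sum_const, Finset.card_univ, Fintype.card_fin] at h1
        simpa using h1
      have hA : 4 * d + 1 ≤ ∑ i, c i * c i + 3 * (k * k) := by nlinarith
      have hB : s * (4 * d + 1) ≤ s * (∑ i, c i * c i + 3 * (k * k)) :=
        mul_le_mul_of_nonneg_left hA hsp.le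
      have hC' : g * (4 * d) < s * (4 * d + 1) := by nlinarith
      refine ⟨(hC'.trans_le hB).le, fun heq => ?_⟩
      exfalso
      rw [heq] at hB
      linarith

end Pool.Agent.CN2.H13

end
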