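import Pool.Agent.Helper25_CN2.Stmts
import Pool.Agent.Helper25_CON.PDLem

/-!
Squad CN2, module J_U: the classes of E_7 and E_8.
-/

noncomputable section

set_option autoImplicit false

namespace Pool.Agent.CN2.H13

open Pool.Agent.CON Pool.Agent.CN2

/-- J11: E_7 and E_8 -/
theorem j_u (hVAL : E_VAL) : J_U := by
  intro M _ b C s x hb hC hs hdiv hx hN2 hx4 t ρ ⟨⟨z, hz, ht⟩, hρ, hρ4, hall⟩
  have hsp := hC.pos
  set S := AddSubgroup.closure C with hS
  have htS : t ∈ S := by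
    rw [ht]; exact S.add_mem hx (S.zsmul_mem hz 2)
  obtain ⟨ρ', hρ'⟩ : ∃ ρ', ρ = 2 * ρ' := ⟨ρ / 2, by omega⟩
  have hρp : 0 < ρ' := by omega
  have hρodd : ¬ (2 : ℤ) ∣ ρ' := by omega
  have h1 : ∀ y ∈ S, ρ' ∣ b t y := by
    intro y hy
    have h2 := hall ((2 : ℤ) • y) (S.zsmul_mem hy 2) ⟨b x y, hb.zsmul_right 2 x y⟩
    rw [hb.zsmul_right, hρ'] at h2
    exact (mul_dvd_mul_iff_left two_ne_zero).1 h2
  have h2 : ∀ y ∈ S, s ∣ b t y := (hVAL M b C s hb hC t htS).1
  -- g and r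
  set g : ℤ := (Int.gcd s ρ' : ℤ) with hg
  have hgp : 0 < g := by
    rw [hg]; exact_mod_cast Int.gcd_pos_of_ne_zero_left _ hsp.ne'
  obtain ⟨s', hs'⟩ : g ∣ s := Int.gcd_dvd_left _ _
  obtain ⟨r, hr⟩ : g ∣ ρ' := Int.gcd_dvd_right _ _
  have hrp : 0 < r := by
    by_contra h
    push Not at h
    have : g * r ≤ 0 := mul_nonpos_of_nonneg_of_nonpos hgp.le h
    rw [← hr] at this
    omega
  have hcop : IsCoprime r s' := by
    have h1 : Int.gcd s ρ' = Int.gcd (g * s') (g * r) := by rw [← hs', ← hr]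
    rw [Int.gcd_mul_left] at h1
    have h2 : (Int.gcd s ρ' : ℤ) = g.natAbs * (Int.gcd s' r : ℤ) := by
      rw [h1]; push_cast; rfl
    rw [← hg, Int.natCast_natAbs, abs_of_pos hgp] at h2
    have h3 : (Int.gcd s' r : ℤ) = 1 := by
      have : g * 1 = g * (Int.gcd s' r : ℤ) := by rw [mul_one]; exact h2
      exact (mul_left_cancel₀ hgp.ne' this).symm
    have h4 : Int.gcd r s' = 1 := by
      rw [Int.gcd_comm]; exact_mod_cast h3
    exact Int.isCoprime_iff_gcd_eq_one.2 h4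
  have h3 : ∀ y ∈ S, s * r ∣ b t y := by
    intro y hy
    obtain ⟨a, ha⟩ := h2 y hy
    have h5 : g * r ∣ g * (s' * a) := by
      rw [← hr, ← mul_assoc, ← hs', ← ha]; exact h1 y hy
    have h6 : r ∣ s' * a := (mul_dvd_mul_iff_left hgp.ne').1 h5
    obtain ⟨c, hc⟩ := hcop.dvd_of_dvd_mul_left h6
    exact ⟨c, by rw [ha, hc]; ring⟩
  have hrodd : ¬ (2 : ℤ) ∣ r := by
    intro h
    apply hρodd
    rw [hr]; exact Dvd.dvd.mul_left h g
  obtain ⟨t', ht', e⟩ := hdiv t htS r hrodd h3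
  obtain ⟨k, hk⟩ : ∃ k, r = 2 * k + 1 := ⟨r / 2, by omega⟩
  -- t' is congruent to x
  set z' : M := z - k • t' with hz'
  have hz'S : z' ∈ S := S.sub_mem hz (S.zsmul_mem ht' k)
  have et : t' = x + (2 : ℤ) • z' := by
    have h4 : t' = t - (2 * k) • t' := by
      rw [e, hk, add_smul, one_smul]; abel
    conv_lhs => rw [h4, ht]
    rw [hz', smul_sub, smul_smul]
    abel
  have hne : t' ≠ 0 := by
    intro h0
    apply hN2 (-z') (AddSubgroup.neg_mem _ hz'S)
    rw [smul_neg]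
    rw [h0] at et
    exact eq_neg_of_add_eq_zero_left et.symm
  have hn : b t' t' = b x x + 4 * b x z' + 4 * b z' z' := by
    rw [et, hb.add_left, hb.add_right, hb.add_right, hb.zsmul_left, hb.zsmul_left,
      hb.zsmul_right, hb.zsmul_right, hb.symm z' x]
    ring
  have h4 : (4 : ℤ) ∣ b t' t' := by
    rw [hn]
    exact dvd_add (dvd_add hx4 ⟨_, rfl⟩) ⟨_, rfl⟩
  have h5 : s ∣ b t' t' := (hVAL M b C s hb hC t' ht').1 t' ht'
  have hcop4 : IsCoprime (4 : ℤ) s := by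
    have : IsCoprime (2 : ℤ) s :=
      (Prime.coprime_iff_not_dvd Int.prime_two).2 hs
    have h6 : (4 : ℤ) = 2 ^ 2 := by norm_num
    rw [h6]
    exact this.pow_left
  have h6 : 4 * s ∣ b t' t' := hcop4.mul_dvd h4 h5
  have h7 : 4 * s ≤ b t' t' := Int.le_of_dvd (hb.pos t' hne) h6
  have h8 : b t t = r * r * b t' t' := by
    rw [e, hb.zsmul_left, hb.zsmul_right]; ring
  have hgs : g ≤ s := by
    rw [hs']
    have hs'p : 0 < s' := by
      by_contra h
      push Not at h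
      have : g * s' ≤ 0 := mul_nonpos_of_nonneg_of_nonpos hgp.le h
      rw [← hs'] at this
      omega
    nlinarith
  have hrr : r ≤ r * r := by nlinarith
  have k1 : r * r * (4 * s) ≤ b t t := by
    rw [h8]; exact mul_le_mul_of_nonneg_left h7 (mul_self_nonneg r)
  have k2 : r * r * (4 * g) ≤ r * r * (4 * s) :=
    mul_le_mul_of_nonneg_left (by linarith) (mul_self_nonneg r)
  have k3 : r * (4 * g) ≤ r * r * (4 * g) := mul_le_mul_of_nonneg_right hrr (by linarith)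
  have k4 : 2 * ρ = r * (4 * g) := by rw [hρ', hr]; ring
  refine ⟨by rw [k4]; exact k3.trans (k2.trans k1), fun heq => ?_⟩
  rw [k4] at heq
  rw [heq] at k1
  have m1 : r * r * (4 * g) ≤ r * (4 * g) := k2.trans k1
  have m2 : r * r ≤ r := le_of_mul_le_mul_right m1 (by linarith)
  have hr1 : r = 1 := by nlinarith
  rw [hr1] at k1
  have m3 : g = s := by linarith
  rw [hρ', hr, hr1, m3, mul_one]

end Pool.Agent.CN2.H13

end
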